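import Pool.Agent.Q17.Fact.Final

/-! For every odd prime `p` there is a finite `p`-group `P = A B` with `A ∩ B = 1`, `A` abelian and
`B` of class two, such that no abelian subgroup `B₀` of `B` satisfies `⟨A, [B, B]⟩ = A B₀`. -/

open scoped Pointwise

namespace Pool.Agent.Results.MP_c57c58_al

/-- Counterexample for every odd prime `p`, with trivial intersection of the two factors.
`A ⊔ ⁅B, B⁆` is the subgroup generated by `A` and the derived subgroup of `B`. -/
theorem NonabelianIntersection.result (p : ℕ) [Fact p.Prime] (hp : p ≠ 2) :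
    ∃ (P : Type) (_ : Group P) (_ : Finite P), IsPGroup p P ∧
      ∃ A B : Subgroup P, (∀ g : P, ∃ a ∈ A, ∃ b ∈ B, a * b = g) ∧ A ⊓ B = ⊥ ∧
        (∀ x ∈ A, ∀ y ∈ A, x * y = y * x) ∧
        (Group.IsNilpotent B ∧ Group.nilpotencyClass B = 2) ∧
        ∀ B₀ : Subgroup P, B₀ ≤ B → (∀ x ∈ B₀, ∀ y ∈ B₀, x * y = y * x) →
          ((A ⊔ ⁅B, B⁆ : Subgroup P) : Set P) ≠ (A : Set P) * (B₀ : Set P) :=
  Q17.Fact.main p hp

end Pool.Agent.Results.MP_c57c58_al
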